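import Pool.Agent.Helper62.MU.St

/-!
# MU module APX: approximation by even nonincreasing polynomials
-/

set_option autoImplicit false

open MeasureTheory Metric Set Filter Topology Polynomial

namespace Pool.Agent.Helper84.MU

open Pool.Agent.Helper62.MU Pool.Agent.Helper62.Mink

/-- Monotone approximation on `[0,1]`. -/
theorem antitone_approx {F : ℝ → ℝ} (hF : Continuous F) (hA : Antitone F) {ε : ℝ} (hε : 0 < ε) :
    ∃ P : ℝ[X], (∀ x ∈ Icc (0 : ℝ) 1, P.derivative.eval x ≤ 0) ∧
      ∀ x ∈ Icc (0 : ℝ) 1, |P.eval x - F x| ≤ ε := by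
  obtain ⟨κ, hκdef⟩ : ∃ κ : ℝ, κ = ε / 3 := ⟨_, rfl⟩
  have hκ : 0 < κ := by rw [hκdef]; positivity
  have huc := isCompact_Icc.uniformContinuousOn_of_continuous
    (s := Icc (-1 : ℝ) 2) hF.continuousOn
  rw [Metric.uniformContinuousOn_iff] at huc
  obtain ⟨δ, hδ, hd⟩ := huc κ hκ
  obtain ⟨η, hηdef⟩ : ∃ η : ℝ, η = min (δ / 2) 1 := ⟨_, rfl⟩
  have hη : 0 < η := by rw [hηdef]; positivity
  have hη1 : η ≤ 1 := by rw [hηdef]; exact min_le_right _ _
  have hη2 : η < δ := by rw [hηdef]; exact lt_of_le_of_lt (min_le_left _ _) (by linarith)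
  have hb : ∀ t ∈ Icc (0 : ℝ) 1, ∀ x ∈ Icc (t - η) (t + η), |F x - F t| ≤ κ := by
    intro t ht x hx
    have := hd x ⟨by linarith [hx.1, ht.1], by linarith [hx.2, ht.2]⟩ t
      ⟨by linarith [ht.1], by linarith [ht.2]⟩ (by
        rw [Real.dist_eq]
        exact lt_of_le_of_lt (abs_le.2 ⟨by linarith [hx.1], by linarith [hx.2]⟩) hη2)
    rw [Real.dist_eq] at this
    exact this.le
  have hclose : ∀ t ∈ Icc (0 : ℝ) 1,
      |(1 / (2 * η)) * (∫ x in (t - η)..(t + η), F x) - F t| ≤ κ := by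
    intro t ht
    have hlo : ∫ _ in (t - η)..(t + η), (F t - κ) ≤ ∫ x in (t - η)..(t + η), F x := by
      apply intervalIntegral.integral_mono_on (by linarith)
        (continuous_const.intervalIntegrable _ _) (hF.intervalIntegrable _ _)
      intro x hx
      have := (abs_le.1 (hb t ht x hx)).1
      linarith
    have hhi : ∫ x in (t - η)..(t + η), F x ≤ ∫ _ in (t - η)..(t + η), (F t + κ) := by
      apply intervalIntegral.integral_mono_on (by linarith)
        (hF.intervalIntegrable _ _) (continuous_const.intervalIntegrable _ _)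
      intro x hx
      have := (abs_le.1 (hb t ht x hx)).2
      linarith
    rw [intervalIntegral.integral_const] at hlo hhi
    have e0 : (t + η - (t - η)) = 2 * η := by ring
    rw [e0, smul_eq_mul] at hlo hhi
    have h2 : (0 : ℝ) < 1 / (2 * η) := by positivity
    have h3 := mul_le_mul_of_nonneg_left hlo h2.le
    have h4 := mul_le_mul_of_nonneg_left hhi h2.le
    have e1 : (1 / (2 * η)) * (2 * η * (F t - κ)) = F t - κ := by field_simp
    have e2 : (1 / (2 * η)) * (2 * η * (F t + κ)) = F t + κ := by field_simp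
    rw [e1] at h3
    rw [e2] at h4
    exact abs_le.2 ⟨by linarith, by linarith⟩
  set G : ℝ → ℝ := fun t => (1 / (2 * η)) * ∫ x in (t - η)..(t + η), F x with hG
  set g : ℝ → ℝ := fun t => (1 / (2 * η)) * (F (t + η) - F (t - η)) with hg
  have hGd : ∀ t, HasDerivAt G (g t) t := fun t => hasDerivAt_avg hF η t
  have hgc : Continuous g := by
    simp only [hg]
    fun_prop
  have hg0 : ∀ t, g t ≤ 0 := by
    intro t
    have h1 : F (t + η) ≤ F (t - η) := hA (by linarith)
    have h2 : (0 : ℝ) < 1 / (2 * η) := by positivity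
    simp only [hg]
    nlinarith
  obtain ⟨q, hq⟩ := exists_polynomial_near_of_continuousOn 0 1 (fun t => g t - κ)
    (hgc.sub continuous_const).continuousOn κ hκ
  obtain ⟨P, hP⟩ := exists_antideriv q
  set p : ℝ[X] := P + Polynomial.C (G 0 - P.eval 0) with hpdef
  have hpd : p.derivative = q := by
    rw [hpdef, derivative_add, derivative_C, add_zero, hP]
  have hp0 : p.eval 0 = G 0 := by
    rw [hpdef, eval_add, eval_C]; ring
  have hpG : ∀ x ∈ Icc (0 : ℝ) 1, |p.eval x - G x| ≤ 2 * κ := by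
    intro x hx
    have hd : ∀ y ∈ Icc (0 : ℝ) 1, HasDerivWithinAt (fun y => p.eval y - G y) (q.eval y - g y)
        (Icc (0 : ℝ) 1) y := by
      intro y _
      have h1 := p.hasDerivAt y
      rw [hpd] at h1
      exact (h1.sub (hGd y)).hasDerivWithinAt
    have hbd : ∀ y ∈ Icc (0 : ℝ) 1, ‖q.eval y - g y‖ ≤ 2 * κ := by
      intro y hy
      rw [Real.norm_eq_abs]
      have h1 := abs_lt.1 (hq y hy)
      exact abs_le.2 ⟨by linarith [h1.1], by linarith [h1.2]⟩
    have := (convex_Icc (0 : ℝ) 1).norm_image_sub_le_of_norm_hasDerivWithin_le hd hbd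
      (by norm_num : (0 : ℝ) ∈ Icc (0 : ℝ) 1) hx
    simp only [hp0, sub_self, sub_zero, Real.norm_eq_abs] at this
    have h1 : |x| ≤ 1 := abs_le.2 ⟨by linarith [hx.1], hx.2⟩
    calc |p.eval x - G x| ≤ 2 * κ * |x| := this
      _ ≤ 2 * κ * 1 := by gcongr
      _ = 2 * κ := mul_one _
  refine ⟨p, ?_, ?_⟩
  · intro x hx
    rw [hpd]
    have h1 := abs_lt.1 (hq x hx)
    linarith [hg0 x, h1.2]
  · intro x hx
    have h1 := abs_le.1 (hpG x hx)
    have h2 := abs_le.1 (hclose x hx)
    have h3 : G x = (1 / (2 * η)) * ∫ x in (x - η)..(x + η), F x := rfl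
    rw [← h3] at h2
    have h4 : ε = 3 * κ := by rw [hκdef]; ring
    rw [h4]
    exact abs_le.2 ⟨by linarith [h1.1, h2.1], by linarith [h1.2, h2.2]⟩

theorem hAPX : StAPX := by
  intro n k hn hk hkA hseg ε hε
  have hcl : ∀ s : ℝ, √(max 0 (min 1 s)) ∈ Icc (0 : ℝ) 1 := by
    intro s
    refine ⟨Real.sqrt_nonneg _, ?_⟩
    rw [Real.sqrt_le_one]
    exact max_le zero_le_one (min_le_left _ _)
  have hFc : Continuous (fun s : ℝ => k √(max 0 (min 1 s))) :=
    hk.comp_continuous (by fun_prop) hcl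
  have hFA : Antitone (fun s : ℝ => k √(max 0 (min 1 s))) := by
    intro s t hst
    apply hkA (hcl s) (hcl t)
    apply Real.sqrt_le_sqrt
    exact max_le_max le_rfl (min_le_min le_rfl hst)
  obtain ⟨P, hP1, hP2⟩ := antitone_approx hFc hFA (half_pos hε)
  obtain ⟨p0, hp0⟩ : ∃ p0 : ℝ[X], p0 = P.comp (X ^ 2) := ⟨_, rfl⟩
  have hev : ∀ t : ℝ, p0.eval t = P.eval (t ^ 2) := by
    intro t
    rw [hp0, eval_comp, eval_pow, eval_X]
  have hder : ∀ t : ℝ, p0.derivative.eval t = 2 * t * P.derivative.eval (t ^ 2) := by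
    intro t
    rw [hp0, derivative_comp, eval_mul, eval_comp, derivative_X_pow]
    simp only [eval_mul, eval_pow, eval_X, eval_C, Nat.cast_ofNat, Nat.add_one_sub_one, pow_one]
  have hsq : ∀ t ∈ Icc (-1 : ℝ) 1, t ^ 2 ∈ Icc (0 : ℝ) 1 := by
    intro t ht
    exact ⟨sq_nonneg t, by nlinarith [ht.1, ht.2]⟩
  have hnear : ∀ t ∈ Icc (-1 : ℝ) 1, |p0.eval t - k (|t|)| ≤ ε / 2 := by
    intro t ht
    have h1 := hP2 (t ^ 2) (hsq t ht)
    have h2 : √(max 0 (min 1 (t ^ 2))) = |t| := by
      rw [min_eq_right (hsq t ht).2, max_eq_right (hsq t ht).1, Real.sqrt_sq_eq_abs]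
    simp only [h2] at h1
    rw [hev]
    exact h1
  have hkc : ContinuousOn (fun t => k (|t|)) (Icc (-1 : ℝ) 1) := by
    apply hk.comp continuous_abs.continuousOn
    intro t ht
    exact ⟨abs_nonneg t, abs_le.2 ht⟩
  have hpc : ContinuousOn (fun t => p0.eval t) (Icc (-1 : ℝ) 1) := p0.continuous.continuousOn
  have hone : seg n (fun _ => ε / 2 * 1) = ε / 2 * seg n (fun _ => 1) :=
    seg_const_mul (ε / 2) (fun _ => 1)
  have hS := seg_one_pos n
  have hup : seg n (fun t => p0.eval t) ≤ ε / 2 * seg n (fun _ => 1) := by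
    calc seg n (fun t => p0.eval t) ≤ seg n (fun t => k (|t|) + ε / 2 * 1) := by
          apply seg_mono hpc (hkc.add continuousOn_const)
          intro t ht
          have := (abs_le.1 (hnear t ht)).2
          simp only [Pi.add_apply]
          linarith
      _ = seg n (fun t => k (|t|)) + seg n (fun _ => ε / 2 * 1) := seg_add hkc continuousOn_const
      _ = ε / 2 * seg n (fun _ => 1) := by rw [hseg, hone, zero_add]
  have hlo : -(ε / 2 * seg n (fun _ => 1)) ≤ seg n (fun t => p0.eval t) := by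
    have h1 : (0 : ℝ) ≤ seg n (fun t => p0.eval t) + seg n (fun _ => ε / 2 * 1) := by
      calc (0 : ℝ) = seg n (fun t => k (|t|)) := hseg.symm
        _ ≤ seg n (fun t => p0.eval t + ε / 2 * 1) := by
          apply seg_mono hkc (hpc.add continuousOn_const)
          intro t ht
          have := (abs_le.1 (hnear t ht)).1
          simp only [Pi.add_apply]
          linarith
        _ = _ := seg_add hpc continuousOn_const
    rw [hone] at h1
    linarith
  obtain ⟨c, hc⟩ : ∃ c : ℝ, c = seg n (fun t => p0.eval t) / seg n (fun _ => 1) := ⟨_, rfl⟩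
  have hc1 : c * seg n (fun _ => 1) = seg n (fun t => p0.eval t) := by
    rw [hc, div_mul_cancel₀ _ hS.ne']
  have hcabs : |c| ≤ ε / 2 := by
    rw [abs_le]
    constructor
    · by_contra hcon
      push Not at hcon
      have := mul_lt_mul_of_pos_right hcon hS
      rw [hc1] at this
      linarith
    · by_contra hcon
      push Not at hcon
      have := mul_lt_mul_of_pos_right hcon hS
      rw [hc1] at this
      linarith
  refine ⟨p0 - Polynomial.C c, ⟨?_, ?_⟩, ?_, ?_⟩
  · intro x
    rw [eval_sub, eval_sub, eval_C, eval_C, hev, hev, neg_sq]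
  · intro x hx
    rw [derivative_sub, derivative_C, sub_zero, hder]
    have h1 := hP1 (x ^ 2) (hsq x ⟨by linarith [hx.1], hx.2⟩)
    have h2 : (0 : ℝ) ≤ 2 * x := by linarith [hx.1]
    exact mul_nonpos_of_nonneg_of_nonpos h2 h1
  · intro t ht
    rw [eval_sub, eval_C]
    have h1 := abs_le.1 (hnear t ht)
    have h2 := abs_le.1 hcabs
    exact abs_le.2 ⟨by linarith [h1.1, h2.2], by linarith [h1.2, h2.1]⟩
  · have h1 : seg n (fun t => (p0 - Polynomial.C c).eval t) =
        seg n (fun t => p0.eval t + -c * 1) := by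
      congr 1
      ext t
      rw [eval_sub, eval_C]
      ring
    rw [h1, seg_add hpc continuousOn_const, seg_const_mul (-c) (fun _ => 1)]
    linarith

end Pool.Agent.Helper84.MU
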